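import Pool.Agent.W128.VA.Stm2

/-! Project VA, part VA-SPAN: the other modes on an extremal vector. -/

set_option autoImplicit false

namespace Pool.Agent.W73.VA

open Finset Pool.Agent.W128.VA

section

variable {M : Type*} [AddCommGroup M] [Module ℂ M]

theorem sum_h (h g : ℤ → Module.End ℂ M) (j : ℤ) (w : M) (hw1 : ∀ n : ℤ, 0 < n → h n w = 0)
    (hw2 : h 0 w = (j : ℂ) • w) (n : ℤ) (b : ℕ) :
    ∑ i ∈ range (b + 1), g (n - 1 - i) (h i w) = (j : ℂ) • g (n - 1) w := by
  rw [Finset.sum_range_succ']
  have h1 : ∑ i ∈ range b, g (n - 1 - ((i + 1 : ℕ) : ℤ)) (h ((i + 1 : ℕ) : ℤ) w) = 0 := by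
    refine Finset.sum_eq_zero fun i _ => ?_
    rw [hw1 _ (by omega), map_zero]
  rw [h1, zero_add, Nat.cast_zero, sub_zero, hw2, map_smul]

theorem step_mem (U : Submodule ℂ M) (b : ℕ) (x S : M) (hS : S ∈ U)
    (h : ((b + 1 : ℕ) : ℂ) • x = S) : x ∈ U := by
  have h0 : ((b + 1 : ℕ) : ℂ) ≠ 0 := Nat.cast_ne_zero.2 (Nat.succ_ne_zero b)
  have h1 : x = ((b + 1 : ℕ) : ℂ)⁻¹ • S := by
    rw [← h, inv_smul_smul₀ h0]
  rw [h1]
  exact U.smul_mem _ hS

end

theorem main.{u} : S_STR.{u} → S_SPAN.{u} := by
  intro hS M _ _ gr h e f X j w hw U hU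
  obtain ⟨h1, h2, -⟩ := hS M gr h e f X j w hw
  have hw1 : ∀ n : ℤ, 0 < n → h n w = 0 := hw.1
  have hw2 : h 0 w = (j : ℂ) • w := hw.2
  constructor
  · intro he
    have key : ∀ a : ℕ, e (-j - 1 - a) w ∈ U := by
      intro a
      induction a using Nat.strong_induction_on with
      | _ a ih =>
        cases a with
        | zero => simpa using he
        | succ b =>
          have hT := X.Te (-j - ((b + 1 : ℕ) : ℤ)) w (b + 1)
            (fun i hi => h1 _ (by push_cast; omega)) (fun i hi => hw1 _ (by omega))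
          rw [Finset.sum_add_distrib, sum_h h e j w hw1 hw2] at hT
          have e1 : -j - 1 - ((b + 1 : ℕ) : ℤ) = -j - ((b + 1 : ℕ) : ℤ) - 1 := by ring
          rw [e1]
          refine step_mem U b _ (∑ i ∈ range (b + 1),
            h (-1 - i) (e (-j - ((b + 1 : ℕ) : ℤ) + i) w)) ?_ ?_
          · refine U.sum_mem fun i hi => ?_
            have hi' := Finset.mem_range.1 hi
            have e2 : (-1 - (i : ℤ)) = -(1 + (i : ℤ)) := by ring
            have e3 : -j - ((b + 1 : ℕ) : ℤ) + i = -j - 1 - ((b - i : ℕ) : ℤ) := by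
              omega
            rw [e2, e3]
            exact hU _ (by omega) _ (ih _ (by omega))
          · have hc : ((b + 1 : ℕ) : ℂ) = -(((-j - ((b + 1 : ℕ) : ℤ) : ℤ)) : ℂ) - (j : ℂ) := by
              push_cast
              ring
            rw [hc, sub_smul, hT, add_sub_cancel_right]
    intro n
    rcases lt_or_ge (-j - 1) n with hn | hn
    · rw [h1 n hn]
      exact U.zero_mem
    · have := key (-j - 1 - n).toNat
      have e1 : -j - 1 - ((-j - 1 - n).toNat : ℤ) = n := by omega
      rwa [e1] at this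
  · intro hf
    have key : ∀ a : ℕ, f (j - 1 - a) w ∈ U := by
      intro a
      induction a using Nat.strong_induction_on with
      | _ a ih =>
        cases a with
        | zero => simpa using hf
        | succ b =>
          have hT := X.Tf (j - ((b + 1 : ℕ) : ℤ)) w (b + 1)
            (fun i hi => h2 _ (by push_cast; omega)) (fun i hi => hw1 _ (by omega))
          rw [Finset.sum_add_distrib, sum_h h f j w hw1 hw2] at hT
          have e1 : j - 1 - ((b + 1 : ℕ) : ℤ) = j - ((b + 1 : ℕ) : ℤ) - 1 := by ring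
          rw [e1]
          refine step_mem U b _ (-∑ i ∈ range (b + 1),
            h (-1 - i) (f (j - ((b + 1 : ℕ) : ℤ) + i) w)) ?_ ?_
          · refine U.neg_mem (U.sum_mem fun i hi => ?_)
            have hi' := Finset.mem_range.1 hi
            have e2 : (-1 - (i : ℤ)) = -(1 + (i : ℤ)) := by ring
            have e3 : j - ((b + 1 : ℕ) : ℤ) + i = j - 1 - ((b - i : ℕ) : ℤ) := by
              omega
            rw [e2, e3]
            exact hU _ (by omega) _ (ih _ (by omega))
          · have hc : ((b + 1 : ℕ) : ℂ) = -(((j - ((b + 1 : ℕ) : ℤ) : ℤ)) : ℂ) + (j : ℂ) := by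
              push_cast
              ring
            rw [hc, add_smul, hT, neg_add, neg_add_cancel_right]
    intro n
    rcases lt_or_ge (j - 1) n with hn | hn
    · rw [h2 n hn]
      exact U.zero_mem
    · have := key (j - 1 - n).toNat
      have e1 : j - 1 - ((j - 1 - n).toNat : ℤ) = n := by omega
      rwa [e1] at this

end Pool.Agent.W73.VA
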